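import Mathlib

set_option autoImplicit false

open MeasureTheory Set Filter Topology

namespace Pool.Agent.Lib.Pcb17ae

/-- a fixed smooth bump function, equal to one near `0`. -/
noncomputable def chi : ContDiffBump (0:ℝ) := ⟨1, 2, one_pos, one_lt_two⟩

/-- the model functions `y ^ n * chi y`. -/
noncomputable def psi (n : ℕ) : ℝ → ℂ := fun y => ((y ^ n * chi y : ℝ) : ℂ)

lemma psi_smooth (n : ℕ) : ContDiff ℝ (⊤ : ℕ∞) (psi n) := by
  unfold psi
  have h1 : ContDiff ℝ (⊤ : ℕ∞) (fun y : ℝ => y ^ n * chi y) :=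
    (contDiff_id.pow n).mul chi.contDiff
  exact Complex.ofRealCLM.contDiff.comp h1

lemma psi_bound (n k : ℕ) : ∃ M : ℝ, 0 ≤ M ∧ ∀ y, ‖iteratedDeriv k (psi n) y‖ ≤ M := by
  have hc : HasCompactSupport (psi n) := by
    have : HasCompactSupport (fun y : ℝ => y ^ n * chi y) := chi.hasCompactSupport.mul_left
    exact this.comp_left (g := fun r : ℝ => (r : ℂ)) (by simp)
  have hc2 : HasCompactSupport (iteratedFDeriv ℝ k (psi n)) := hc.iteratedFDeriv k
  have hcont : Continuous (iteratedFDeriv ℝ k (psi n)) :=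
    (psi_smooth n).continuous_iteratedFDeriv (by exact_mod_cast le_top)
  obtain ⟨M, hM⟩ := hcont.bounded_above_of_compact_support hc2
  refine ⟨max M 0, le_max_right _ _, fun y => ?_⟩
  rw [← norm_iteratedFDeriv_eq_norm_iteratedDeriv]
  exact (hM y).trans (le_max_left _ _)

lemma psi_deriv_zero (n k : ℕ) : iteratedDeriv k (psi n) 0 = if k = n then (n.factorial : ℂ) else 0 := by
  have h : psi n =ᶠ[𝓝 0] fun y : ℝ => ((y:ℂ)) ^ n := by
    filter_upwards [chi.eventuallyEq_one] with y hy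
    simp only [psi]
    rw [hy]
    simp
  rw [h.iteratedDeriv_eq k]
  have h2 : (fun y : ℝ => ((y:ℂ)) ^ n) = Complex.ofRealCLM ∘ fun y : ℝ => (y ^ n) := by
    funext y; simp
  rw [h2]
  have h3 : iteratedDeriv k (Complex.ofRealCLM ∘ fun y : ℝ => (y ^ n)) 0 = Complex.ofRealCLM (iteratedDeriv k (fun y : ℝ => y ^ n) 0) := by
    rw [iteratedDeriv_eq_iteratedFDeriv, iteratedDeriv_eq_iteratedFDeriv,
      ContinuousLinearMap.iteratedFDeriv_comp_left (n := k)]
    · rfl
    · exact (contDiff_id.pow n).contDiffAt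
    · exact le_rfl
  rw [h3, iteratedDeriv_fun_pow_zero]
  split_ifs <;> simp_all

/-- Borel's theorem at `0`. -/
lemma borel_zero (c : ℕ → ℂ) : ∃ f : ℝ → ℂ, ContDiff ℝ (⊤ : ℕ∞) f ∧ ∀ k, iteratedDeriv k f 0 = c k := by
  choose B hB0 hB using psi_bound
  -- the dilation factors
  let L : ℕ → ℝ := fun n => 1 + 2 ^ n * ‖c n‖ * ∑ k ∈ Finset.range n, B n k
  have hL1 : ∀ n, 1 ≤ L n := fun n => by
    have : 0 ≤ 2 ^ n * ‖c n‖ * ∑ k ∈ Finset.range n, B n k := by
      have := Finset.sum_nonneg (s := Finset.range n) (fun k _ => hB0 n k)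
      positivity
    simp only [L]; linarith
  have hLpos : ∀ n, 0 < L n := fun n => lt_of_lt_of_le one_pos (hL1 n)
  let F : ℕ → ℝ → ℂ := fun n x => (c n / (n.factorial : ℂ) / ((L n : ℂ)) ^ n) * psi n (L n * x)
  have hFs : ∀ n, ContDiff ℝ (⊤ : ℕ∞) (F n) := fun n => by
    refine contDiff_const.mul ((psi_smooth n).comp ?_)
    exact contDiff_const.mul contDiff_id
  have hFd : ∀ n k x, iteratedDeriv k (F n) x =
      (c n / (n.factorial : ℂ) / ((L n : ℂ)) ^ n) * (((L n : ℂ)) ^ k * iteratedDeriv k (psi n) (L n * x)) := by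
    intro n k x
    simp only [F]
    rw [iteratedDeriv_const_mul_field]
    congr 1
    have := congrFun (iteratedDeriv_comp_const_smul (n := k) (f := psi n)
      ((psi_smooth n).of_le (by exact_mod_cast le_top)) (L n)) x
    rw [this, Complex.real_smul]
    push_cast
    rfl
  -- the bounds
  let v : ℕ → ℕ → ℝ := fun k n => if k < n then (1 / 2) ^ n else
    ‖c n‖ / (n.factorial : ℝ) / (L n) ^ n * ((L n) ^ k * B n k)
  have hv : ∀ k : ℕ, Summable (v k) := by
    intro k
    have h1 : Summable (fun n : ℕ => ((1:ℝ) / 2) ^ n) := summable_geometric_two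
    refine (h1.congr_cofinite ?_)
    rw [Filter.EventuallyEq, Nat.cofinite_eq_atTop]
    filter_upwards [eventually_gt_atTop k] with n hn
    simp only [v, if_pos hn]
  have hnorm : ∀ k n x, ‖iteratedDeriv k (F n) x‖ ≤ ‖c n‖ / (n.factorial : ℝ) / (L n) ^ n * ((L n) ^ k * B n k) := by
    intro k n x
    rw [hFd]
    simp only [norm_mul, norm_div, norm_pow, Complex.norm_real, Complex.norm_natCast, Real.norm_eq_abs,
      abs_of_pos (hLpos n)]
    have := hB n k (L n * x)
    have := hLpos n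
    gcongr
  have hbound : ∀ (k : ℕ) (n : ℕ) (x : ℝ), ((k : ℕ∞)) ≤ (⊤ : ℕ∞) → ‖iteratedFDeriv ℝ k (F n) x‖ ≤ v k n := by
    intro k n x _
    rw [norm_iteratedFDeriv_eq_norm_iteratedDeriv]
    refine (hnorm k n x).trans ?_
    simp only [v]
    split_ifs with hkn
    · -- k < n
      have hpos := hLpos n
      have hf1 : (1:ℝ) ≤ (n.factorial : ℝ) := by exact_mod_cast Nat.one_le_iff_ne_zero.mpr (Nat.factorial_ne_zero n)
      have h1 : (L n) ^ k / (L n) ^ n ≤ 1 / (L n) := by
        rw [div_le_div_iff₀ (by positivity) hpos, one_mul, ← pow_succ]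
        exact pow_le_pow_right₀ (hL1 n) hkn
      have h2 : ‖c n‖ * B n k * 2 ^ n ≤ L n := by
        have h3 : B n k ≤ ∑ k ∈ Finset.range n, B n k :=
          Finset.single_le_sum (f := fun k => B n k) (fun i _ => hB0 n i) (Finset.mem_range.mpr hkn)
        have h4 : ‖c n‖ * B n k * 2 ^ n ≤ ‖c n‖ * (∑ k ∈ Finset.range n, B n k) * 2 ^ n := by gcongr
        have h5 : ‖c n‖ * (∑ k ∈ Finset.range n, B n k) * 2 ^ n = 2 ^ n * ‖c n‖ * ∑ k ∈ Finset.range n, B n k := by ring
        simp only [L]; linarith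
      calc ‖c n‖ / (n.factorial : ℝ) / (L n) ^ n * ((L n) ^ k * B n k)
          = (‖c n‖ * B n k) / (n.factorial : ℝ) * ((L n) ^ k / (L n) ^ n) := by ring
        _ ≤ (‖c n‖ * B n k) / 1 * (1 / L n) := by
            have := hB0 n k
            gcongr
        _ = (‖c n‖ * B n k * 2 ^ n) / L n * (1 / 2) ^ n := by
            rw [one_div_pow]; field_simp
        _ ≤ 1 * (1 / 2) ^ n := by
            gcongr
            exact (div_le_one hpos).mpr h2
        _ = (1 / 2) ^ n := one_mul _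
    · exact le_rfl
  refine ⟨fun x => ∑' n, F n x, ?_, ?_⟩
  · exact contDiff_tsum (N := (⊤ : ℕ∞)) hFs (fun k _ => hv k) hbound
  · intro k
    rw [iteratedDeriv_eq_iteratedFDeriv,
      iteratedFDeriv_tsum_apply (N := (⊤ : ℕ∞)) hFs (fun k _ => hv k) hbound le_top]
    have hsum : Summable (fun n => iteratedFDeriv ℝ k (F n) 0) :=
      Summable.of_norm_bounded (hv k) (fun n => hbound k n 0 le_top)
    rw [ContinuousMultilinearMap.tsum_eval hsum]
    have : ∀ n, (iteratedFDeriv ℝ k (F n) 0) (fun _ => 1) = if n = k then c k else 0 := by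
      intro n
      rw [← iteratedDeriv_eq_iteratedFDeriv, hFd, mul_zero, psi_deriv_zero]
      have hL0 : (L n : ℂ) ≠ 0 := by exact_mod_cast (hLpos n).ne'
      have hf0 : (n.factorial : ℂ) ≠ 0 := by exact_mod_cast Nat.factorial_ne_zero n
      by_cases h : k = n
      · subst h
        simp only [if_true]
        field_simp
      · rw [if_neg h, if_neg (Ne.symm h)]
        simp
    simp_rw [this]
    exact tsum_ite_eq k (fun _ => c k)

/-- Borel's theorem. -/
lemma borel (c : ℕ → ℂ) (t : ℝ) : ∃ f : ℝ → ℂ, ContDiff ℝ (⊤ : ℕ∞) f ∧ ∀ k, iteratedDeriv k f t = c k := by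
  obtain ⟨f, hf, hfc⟩ := borel_zero c
  refine ⟨fun x => f (x + -t), hf.comp (contDiff_id.add contDiff_const), fun k => ?_⟩
  rw [iteratedDeriv_comp_add_const]
  simpa using hfc k

end Pool.Agent.Lib.Pcb17ae
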