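import Mathlib

set_option autoImplicit false

open MeasureTheory Set Filter Topology

namespace Pool.Agent.Lib.Pcb17ae

/-- Differentiation under the integral sign for the Hadamard quotient. -/
lemma hasDerivAt_G (F : ℝ → ℂ) (hF : ContDiff ℝ (⊤ : ℕ∞) F) (s : ℝ) (k : ℕ) (x : ℝ) :
    HasDerivAt (fun x : ℝ => ∫ u in (0:ℝ)..1, ((u:ℂ) ^ k) * F (s + u * (x - s)))
      (∫ u in (0:ℝ)..1, ((u:ℂ) ^ (k + 1)) * deriv F (s + u * (x - s))) x := by
  have hF' : ContDiff ℝ (⊤ : ℕ∞) (deriv F) := (contDiff_infty_iff_deriv.mp hF).2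
  have hFd : Differentiable ℝ F := (contDiff_infty_iff_deriv.mp hF).1
  have hFc : Continuous F := hF.continuous
  have hF'c : Continuous (deriv F) := hF'.continuous
  -- bound for deriv F on a compact set
  obtain ⟨M, hM⟩ : ∃ M, ∀ y ∈ Set.Icc (-(|s| + |x| + |s| + 1)) (|s| + |x| + |s| + 1), ‖deriv F y‖ ≤ M := by
    exact isCompact_Icc.exists_bound_of_continuousOn hF'c.continuousOn
  refine (intervalIntegral.hasDerivAt_integral_of_dominated_loc_of_deriv_le
    (F := fun (x : ℝ) (u : ℝ) => ((u:ℂ) ^ k) * F (s + u * (x - s)))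
    (F' := fun (x : ℝ) (u : ℝ) => ((u:ℂ) ^ (k + 1)) * deriv F (s + u * (x - s)))
    (s := Metric.ball x 1) (bound := fun _ => M) (Metric.ball_mem_nhds x one_pos) ?_ ?_ ?_ ?_ ?_ ?_).2
  · refine Eventually.of_forall fun y => ?_
    refine Continuous.aestronglyMeasurable ?_
    fun_prop
  · refine Continuous.intervalIntegrable ?_ _ _
    fun_prop
  · refine Continuous.aestronglyMeasurable ?_
    fun_prop
  · refine Eventually.of_forall fun u hu y hy => ?_
    rw [uIoc_of_le zero_le_one] at hu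
    have h1 : ‖((u:ℂ) ^ (k + 1))‖ ≤ 1 := by
      rw [norm_pow, Complex.norm_real, Real.norm_eq_abs, abs_of_pos hu.1]
      exact pow_le_one₀ hu.1.le hu.2
    have h2 : ‖deriv F (s + u * (y - s))‖ ≤ M := by
      apply hM
      rw [Set.mem_Icc, ← abs_le]
      have hy' : |y - x| < 1 := by simpa [Real.dist_eq] using hy
      calc |s + u * (y - s)| ≤ |s| + |u * (y - s)| := abs_add_le _ _
        _ = |s| + |u| * |y - s| := by rw [abs_mul]
        _ ≤ |s| + 1 * |y - s| := by
          gcongr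
          rw [abs_of_pos hu.1]; exact hu.2
        _ ≤ |s| + (|y - x| + |x| + |s|) := by
          have : |y - s| ≤ |y - x| + |x| + |s| := by
            have e : y - s = (y - x) + x + (-s) := by ring
            rw [e]
            calc |(y - x) + x + (-s)| ≤ |(y - x) + x| + |-s| := abs_add_le _ _
              _ ≤ |y - x| + |x| + |s| := by rw [abs_neg]; gcongr; exact abs_add_le _ _
          linarith
        _ ≤ |s| + |x| + |s| + 1 := by linarith
    calc ‖((u:ℂ) ^ (k + 1)) * deriv F (s + u * (y - s))‖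
        = ‖((u:ℂ) ^ (k + 1))‖ * ‖deriv F (s + u * (y - s))‖ := norm_mul _ _
      _ ≤ 1 * M := by gcongr
      _ = M := one_mul _
  · exact intervalIntegrable_const
  · refine Eventually.of_forall fun u _ y _ => ?_
    have h1 : HasDerivAt (fun y : ℝ => s + u * (y - s)) u y := by
      have := ((hasDerivAt_id y).sub_const s).const_mul u
      simpa using this.const_add s
    have h2 : HasDerivAt (fun y : ℝ => F (s + u * (y - s))) (u • deriv F (s + u * (y - s))) y :=
      (hFd (s + u * (y - s))).hasDerivAt.scomp y h1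
    rw [Complex.real_smul] at h2
    have h3 := h2.const_mul ((u:ℂ) ^ k)
    refine h3.congr_deriv ?_
    ring

lemma iteratedDeriv_smooth (F : ℝ → ℂ) (hF : ContDiff ℝ (⊤ : ℕ∞) F) (k : ℕ) :
    ContDiff ℝ (⊤ : ℕ∞) (iteratedDeriv k F) := by
  rw [iteratedDeriv_eq_iterate]
  exact ContDiff.iterate_deriv k hF

/-- Hadamard quotient. -/
noncomputable def hq (f : ℝ → ℂ) (s : ℝ) : ℝ → ℂ :=
  fun x => ∫ u in (0:ℝ)..1, deriv f (s + u * (x - s))

lemma iteratedDeriv_hq (f : ℝ → ℂ) (hf : ContDiff ℝ (⊤ : ℕ∞) f) (s : ℝ) (k : ℕ) :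
    iteratedDeriv k (hq f s) = fun x : ℝ => ∫ u in (0:ℝ)..1, ((u:ℂ) ^ k) * iteratedDeriv (k + 1) f (s + u * (x - s)) := by
  induction k with
  | zero =>
    funext x
    simp [hq, iteratedDeriv_one]
  | succ k ih =>
    rw [iteratedDeriv_succ, ih]
    funext x
    rw [(hasDerivAt_G (iteratedDeriv (k + 1) f) (iteratedDeriv_smooth f hf _) s k x).deriv]
    congr 1
    funext u
    rw [← iteratedDeriv_succ]

lemma hq_smooth (f : ℝ → ℂ) (hf : ContDiff ℝ (⊤ : ℕ∞) f) (s : ℝ) :
    ContDiff ℝ (⊤ : ℕ∞) (hq f s) := by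
  apply contDiff_of_differentiable_iteratedDeriv
  intro m _ x
  rw [iteratedDeriv_hq f hf s m]
  exact (hasDerivAt_G (iteratedDeriv (m + 1) f) (iteratedDeriv_smooth f hf _) s m x).differentiableAt

lemma hq_eq (f : ℝ → ℂ) (hf : ContDiff ℝ (⊤ : ℕ∞) f) (s x : ℝ) :
    f x = f s + ((x - s : ℝ) : ℂ) * hq f s x := by
  have hFd : Differentiable ℝ f := (contDiff_infty_iff_deriv.mp hf).1
  have hF' : ContDiff ℝ (⊤ : ℕ∞) (deriv f) := (contDiff_infty_iff_deriv.mp hf).2
  have hF'c : Continuous (deriv f) := hF'.continuous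
  have h : ∫ u in (0:ℝ)..1, ((x - s : ℝ) : ℂ) * deriv f (s + u * (x - s)) = f (s + 1 * (x - s)) - f (s + 0 * (x - s)) := by
    apply intervalIntegral.integral_eq_sub_of_hasDerivAt (f := fun u : ℝ => f (s + u * (x - s)))
    · intro u _
      have h1 : HasDerivAt (fun u : ℝ => s + u * (x - s)) (x - s) u := by
        have := (hasDerivAt_id u).mul_const (x - s)
        simpa using this.const_add s
      have h2 := (hFd (s + u * (x - s))).hasDerivAt.scomp u h1
      rw [Complex.real_smul] at h2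
      exact h2
    · refine Continuous.intervalIntegrable ?_ _ _
      fun_prop
  rw [intervalIntegral.integral_const_mul] at h
  unfold hq
  rw [h]
  simp

lemma hq_bound (f : ℝ → ℂ) (hf : ContDiff ℝ (⊤ : ℕ∞) f) (s : ℝ) (hs : s ∈ Icc (0:ℝ) 1) (k : ℕ) (M : ℝ)
    (hM : ∀ y ∈ Icc (0:ℝ) 1, ‖iteratedDeriv (k + 1) f y‖ ≤ M) :
    ∀ x ∈ Icc (0:ℝ) 1, ‖iteratedDeriv k (hq f s) x‖ ≤ M := by
  intro x hx
  rw [iteratedDeriv_hq f hf s k]
  have := intervalIntegral.norm_integral_le_of_norm_le_const (a := (0:ℝ)) (b := 1) (C := M)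
    (f := fun u : ℝ => ((u:ℂ) ^ k) * iteratedDeriv (k + 1) f (s + u * (x - s))) ?_
  · simpa using this
  · intro u hu
    rw [uIoc_of_le zero_le_one] at hu
    have h1 : ‖((u:ℂ) ^ k)‖ ≤ 1 := by
      rw [norm_pow, Complex.norm_real, Real.norm_eq_abs, abs_of_pos hu.1]
      exact pow_le_one₀ hu.1.le hu.2
    have h2 : ‖iteratedDeriv (k + 1) f (s + u * (x - s))‖ ≤ M := by
      apply hM
      have e : s + u * (x - s) = (1 - u) * s + u * x := by ring
      rw [e]
      constructor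
      · have := hs.1; have := hx.1; have := hu.1; have := hu.2
        nlinarith [mul_nonneg (sub_nonneg.mpr hu.2) hs.1, mul_nonneg hu.1.le hx.1]
      · nlinarith [mul_nonneg (sub_nonneg.mpr hu.2) (sub_nonneg.mpr hs.2), mul_nonneg hu.1.le (sub_nonneg.mpr hx.2)]
    calc ‖((u:ℂ) ^ k) * iteratedDeriv (k + 1) f (s + u * (x - s))‖
        = ‖((u:ℂ) ^ k)‖ * ‖iteratedDeriv (k + 1) f (s + u * (x - s))‖ := norm_mul _ _
      _ ≤ 1 * M := by gcongr
      _ = M := one_mul _

end Pool.Agent.Lib.Pcb17ae
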