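import Mathlib
import Pool.Agent.Lib.Pcb17ae.Hadamard
import Pool.Agent.Lib.Pcb17ae.Borel

set_option autoImplicit false

open MeasureTheory Set Filter Topology

namespace Pool.Agent.Lib.Pcb17ae

/-- The algebra of smooth functions on the line. -/
def Sm : Subalgebra ℂ (ℝ → ℂ) where
  carrier := {f | ContDiff ℝ (⊤ : ℕ∞) f}
  mul_mem' := fun {a b} ha hb => by
    simp only [Set.mem_ofPred_eq] at ha hb ⊢
    exact ha.mul hb
  add_mem' := fun {a b} ha hb => by
    simp only [Set.mem_ofPred_eq] at ha hb ⊢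
    exact ha.add hb
  algebraMap_mem' := fun r => by
    simp only [Set.mem_ofPred_eq]
    exact contDiff_const

lemma mem_Sm {f : ℝ → ℂ} : f ∈ Sm ↔ ContDiff ℝ (⊤ : ℕ∞) f := Iff.rfl

/-- the function `x - t`. -/
noncomputable def X (t : ℝ) : Sm := ⟨fun x => ((x - t : ℝ) : ℂ), by
  rw [mem_Sm]
  exact Complex.ofRealCLM.contDiff.comp (contDiff_id.sub contDiff_const)⟩

lemma X_apply (t x : ℝ) : (X t : ℝ → ℂ) x = ((x - t : ℝ) : ℂ) := rfl

/-- the Hadamard quotient in the bundled form. -/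
noncomputable def hqS (f : Sm) (t : ℝ) : Sm := ⟨hq f.1 t, hq_smooth f.1 f.2 t⟩

lemma hqS_eq (f : Sm) (t : ℝ) : f = (f.1 t) • (1 : Sm) + X t * hqS f t := by
  apply Subtype.ext
  funext x
  have := hq_eq f.1 f.2 t x
  change f.1 x = (f.1 t) • (1:ℂ) + ((x - t : ℝ) : ℂ) * hq f.1 t x
  rw [smul_eq_mul, mul_one]
  exact this

lemma hq_deriv_at (f : ℝ → ℂ) (hf : ContDiff ℝ (⊤ : ℕ∞) f) (t : ℝ) (m : ℕ) :
    iteratedDeriv m (hq f t) t = iteratedDeriv (m + 1) f t / ((m : ℂ) + 1) := by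
  rw [iteratedDeriv_hq f hf t m]
  simp only [sub_self, mul_zero, add_zero]
  rw [intervalIntegral.integral_mul_const]
  have : ∫ u in (0:ℝ)..1, ((u:ℂ) ^ m) = 1 / ((m:ℂ) + 1) := by
    have h := integral_pow (a := (0:ℝ)) (b := 1) m
    have h2 : ∫ u in (0:ℝ)..1, ((u:ℂ) ^ m) = ((∫ u in (0:ℝ)..1, u ^ m : ℝ) : ℂ) := by
      rw [← intervalIntegral.integral_ofReal]
      simp
    rw [h2, h]
    simp
  rw [this]
  ring

/-- Taylor's formula with smooth remainder. -/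
lemma taylor (f : Sm) (t : ℝ) (k : ℕ) : ∃ g : Sm,
    f = (∑ j ∈ Finset.range k, (iteratedDeriv j f.1 t / (j.factorial : ℂ)) • (X t) ^ j) + (X t) ^ k * g
    ∧ ∀ m : ℕ, iteratedDeriv m g.1 t = iteratedDeriv (m + k) f.1 t * (m.factorial : ℂ) / ((m + k).factorial : ℂ) := by
  induction k with
  | zero =>
    refine ⟨f, by simp, fun m => ?_⟩
    have : (m.factorial : ℂ) ≠ 0 := by exact_mod_cast Nat.factorial_ne_zero m
    simp only [add_zero]
    field_simp
  | succ k ih =>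
    obtain ⟨g, hg1, hg2⟩ := ih
    refine ⟨hqS g t, ?_, ?_⟩
    · have h0 : g.1 t = iteratedDeriv k f.1 t / (k.factorial : ℂ) := by
        have := hg2 0
        simpa using this
      rw [Finset.sum_range_succ]
      conv_lhs => rw [hg1, hqS_eq g t]
      rw [h0]
      have e : (X t) ^ k * ((iteratedDeriv k f.1 t / (k.factorial : ℂ)) • (1 : Sm) + X t * hqS g t)
        = (iteratedDeriv k f.1 t / (k.factorial : ℂ)) • (X t) ^ k + (X t) ^ (k + 1) * hqS g t := by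
        rw [mul_add, mul_smul_comm, mul_one, pow_succ]
        ring
      rw [e, add_assoc]
    · intro m
      change iteratedDeriv m (hq g.1 t) t = _
      rw [hq_deriv_at g.1 g.2 t m, hg2 (m + 1)]
      have e1 : m + 1 + k = m + (k + 1) := by ring
      rw [e1]
      have h1 : ((m:ℂ) + 1) ≠ 0 := by exact_mod_cast Nat.succ_ne_zero m
      have h2 : (((m + (k + 1)).factorial : ℕ) : ℂ) ≠ 0 := by exact_mod_cast Nat.factorial_ne_zero _
      rw [Nat.factorial_succ m]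
      push_cast
      field_simp

/-- solution of a unitriangular infinite linear system. -/
noncomputable def csol (m : ℕ → ℕ → ℂ) (d : ℕ → ℂ) : ℕ → ℂ
  | k => d k - ∑ n : Fin k, csol m d n.1 * m k n.1
termination_by k => k
decreasing_by exact n.2

lemma csol_spec (m : ℕ → ℕ → ℂ) (hm : ∀ k, m k k = 1) (d : ℕ → ℂ) (k : ℕ) :
    ∑ n ∈ Finset.range (k + 1), csol m d n * m k n = d k := by
  rw [Finset.sum_range_succ, hm, mul_one]
  conv_lhs => rw [csol]
  rw [← Fin.sum_univ_eq_sum_range (fun n => csol m d n * m k n) k]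
  ring

variable {B : Type*} [NormedRing B] [NormedAlgebra ℂ B] [CompleteSpace B]

lemma step1a (θ : Sm →ₐ[ℂ] B) (hsurj : Function.Surjective θ) (t : ℝ) (k : ℕ)
    (hk : ∀ g : Sm, θ ((X t) ^ k * (1 - X t * g)) ≠ 0) :
    ∃ l : B →L[ℂ] ℂ, l (θ ((X t) ^ k)) = 1 ∧ ∀ g : Sm, l (θ ((X t) ^ (k + 1) * g)) = 0 := by
  classical
  let R : Submodule ℂ B := LinearMap.range (LinearMap.mulLeft ℂ (θ ((X t) ^ (k + 1))))
  have hnot : θ ((X t) ^ k) ∉ R := by
    rintro ⟨b, hb⟩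
    obtain ⟨g, rfl⟩ := hsurj b
    apply hk g
    rw [LinearMap.mulLeft_apply, ← map_mul] at hb
    have : (X t) ^ k * (1 - X t * g) = (X t) ^ k - (X t) ^ (k + 1) * g := by ring
    rw [this, map_sub, hb, sub_self]
  obtain ⟨l, hl0, hl1⟩ := LinearMap.exists_extend_of_notMem (0 : R →ₗ[ℂ] ℂ) hnot 1
  have hlR : ∀ g : Sm, l (θ ((X t) ^ (k + 1) * g)) = 0 := by
    intro g
    have hmem : θ ((X t) ^ (k + 1) * g) ∈ R := ⟨θ g, by rw [LinearMap.mulLeft_apply, map_mul]⟩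
    have := congrFun (congrArg DFunLike.coe hl0) ⟨_, hmem⟩
    simpa using this
  -- continuity of `l`
  let S : (B × (Fin (k + 1) → ℂ)) →L[ℂ] B :=
    (ContinuousLinearMap.mul ℂ B (θ ((X t) ^ (k + 1)))).comp (ContinuousLinearMap.fst ℂ B (Fin (k + 1) → ℂ))
    + ∑ j : Fin (k + 1), (((ContinuousLinearMap.proj (R := ℂ) (φ := fun _ : Fin (k + 1) => ℂ) j).comp
      (ContinuousLinearMap.snd ℂ B (Fin (k + 1) → ℂ))).smulRight (θ ((X t) ^ (j : ℕ))))
  have hS : ∀ p, S p = θ ((X t) ^ (k + 1)) * p.1 + ∑ j : Fin (k + 1), p.2 j • θ ((X t) ^ (j : ℕ)) := by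
    intro p
    simp [S]
  have hSsurj : Function.Surjective S := by
    intro b
    obtain ⟨f, rfl⟩ := hsurj b
    obtain ⟨g, hg, -⟩ := taylor f t (k + 1)
    refine ⟨(θ g, fun j => iteratedDeriv j f.1 t / ((j : ℕ).factorial : ℂ)), ?_⟩
    rw [hS]
    conv_rhs => rw [hg]
    rw [map_add, map_mul, map_sum, add_comm]
    congr 1
    rw [Finset.sum_range]
    simp [map_smul]
  have hlS : Continuous (l ∘ S) := by
    have : (l ∘ S) = fun p : B × (Fin (k + 1) → ℂ) => ∑ j : Fin (k + 1), p.2 j * l (θ ((X t) ^ (j : ℕ))) := by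
      funext p
      obtain ⟨g, hg⟩ := hsurj p.1
      simp only [Function.comp_apply]
      rw [hS, map_add, ← hg, ← map_mul, hlR g, zero_add, map_sum]
      simp [map_smul]
    rw [this]
    fun_prop
  have hlc : Continuous l := ((S.isQuotientMap hSsurj).continuous_iff).mpr hlS
  exact ⟨⟨l, hlc⟩, hl1, hlR⟩

/-- Step 1: the local equation at each point. -/
lemma step1 (θ : Sm →ₐ[ℂ] B) (hsurj : Function.Surjective θ) (t : ℝ) :
    ∃ (k : ℕ) (g : Sm), θ ((X t) ^ k * (1 - X t * g)) = 0 := by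
  by_contra hcon
  push Not at hcon
  choose l hl1 hl0 using fun k => step1a θ hsurj t k (hcon k)
  let m : ℕ → ℕ → ℂ := fun k n => l k (θ ((X t) ^ n))
  let d : ℕ → ℂ := fun k => ((k * ‖l k‖ + 1 : ℝ) : ℂ)
  obtain ⟨f0, hf0, hfc⟩ := borel (fun n => (n.factorial : ℂ) * csol m d n) t
  let f : Sm := ⟨f0, hf0⟩
  have key : ∀ k, l k (θ f) = d k := by
    intro k
    obtain ⟨g, hg, -⟩ := taylor f t (k + 1)
    rw [hg, map_add, map_add, hl0, add_zero, map_sum, map_sum]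
    rw [← csol_spec m (fun k => hl1 k) d k]
    apply Finset.sum_congr rfl
    intro n _
    rw [map_smul, map_smul, smul_eq_mul]
    have hn : iteratedDeriv n f.1 t = (n.factorial : ℂ) * csol m d n := hfc n
    rw [hn, mul_div_cancel_left₀]
    exact_mod_cast Nat.factorial_ne_zero n
  obtain ⟨k, hk⟩ := exists_nat_ge ‖θ f‖
  have h1 : ‖l k (θ f)‖ ≤ ‖l k‖ * ‖θ f‖ := (l k).le_opNorm _
  rw [key k] at h1
  have h2 : ‖d k‖ = k * ‖l k‖ + 1 := by
    simp only [d, Complex.norm_real, Real.norm_eq_abs]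
    rw [abs_of_pos]
    positivity
  rw [h2] at h1
  have h3 : ‖l k‖ * ‖θ f‖ ≤ ‖l k‖ * k := by gcongr
  nlinarith

end Pool.Agent.Lib.Pcb17ae
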