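import Mathlib
import Pool.Agent.Lib.Pcb17ae.Main

set_option autoImplicit false

open MeasureTheory Set Filter Topology
open scoped Manifold ContDiff

namespace Pool.Agent.Lib.Pcb17ae

variable {B : Type*} [NormedRing B] [NormedAlgebra ℂ B] [CompleteSpace B]

/-- Step 2: a nonzero polynomial in `x` is annihilated. -/
lemma step2 (θ : Sm →ₐ[ℂ] B) (hsurj : Function.Surjective θ)
    (heq : ∀ f g : Sm, EqOn f.1 g.1 (Icc (0:ℝ) 1) → θ f = θ g) :
    ∃ s : Multiset ℝ, (∀ t ∈ s, t ∈ Icc (0:ℝ) 1) ∧ θ ((s.map X).prod) = 0 := by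
  classical
  choose k g hkg using step1 θ hsurj
  let U : ℝ → Set ℝ := fun t => {x : ℝ | (1 : ℂ) - ((x - t : ℝ) : ℂ) * (g t).1 x ≠ 0}
  have hUo : ∀ t, IsOpen (U t) := by
    intro t
    have hc : Continuous (fun x : ℝ => (1 : ℂ) - ((x - t : ℝ) : ℂ) * (g t).1 x) := by
      have : Continuous (g t).1 := (mem_Sm.mp (g t).2).continuous
      fun_prop
    exact isOpen_ne.preimage hc
  have hUt : ∀ t, t ∈ U t := by
    intro t
    simp [U]
  obtain ⟨T, hT1, hT2⟩ := isCompact_Icc.elim_nhds_subcover (X := ℝ) (s := Icc (0:ℝ) 1) U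
    (fun t _ => (hUo t).mem_nhds (hUt t))
  have hcov : Icc (0:ℝ) 1 ⊆ ⋃ i : T, U i := by
    intro x hx
    have := hT2 hx
    simp only [mem_iUnion] at this ⊢
    obtain ⟨i, hi, hxi⟩ := this
    exact ⟨⟨i, hi⟩, hxi⟩
  obtain ⟨ρ, hρ⟩ := SmoothPartitionOfUnity.exists_isSubordinate (𝓘(ℝ, ℝ)) isClosed_Icc
    (fun i : T => U i) (fun i => hUo i) hcov
  -- bundled versions
  have hρs : ∀ i : T, ContDiff ℝ (⊤ : ℕ∞) (fun x : ℝ => ((ρ i x : ℝ) : ℂ)) := by
    intro i
    have : ContDiff ℝ (⊤ : ℕ∞) (ρ i) := (ρ i).contMDiff.contDiff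
    exact Complex.ofRealCLM.contDiff.comp this
  let P : T → Sm := fun i => ⟨fun x => ((ρ i x : ℝ) : ℂ), hρs i⟩
  have hqs : ∀ i : T, ContDiff ℝ (⊤ : ℕ∞) (fun x : ℝ => ((ρ i x : ℝ) : ℂ) / ((1 : ℂ) - ((x - i.1 : ℝ) : ℂ) * (g i.1).1 x)) := by
    intro i
    rw [contDiff_iff_contDiffAt]
    intro x
    by_cases hx : x ∈ U i
    · simp only [div_eq_mul_inv]
      refine ContDiffAt.mul ((hρs i).contDiffAt) (ContDiffAt.inv ?_ hx)
      refine contDiffAt_const.sub (ContDiffAt.mul ?_ ((mem_Sm.mp (g i.1).2).contDiffAt))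
      exact (mem_Sm.mp (X i.1).2).contDiffAt
    · have hx2 : x ∉ tsupport (ρ i) := fun h => hx (hρ i h)
      have : (fun x : ℝ => ((ρ i x : ℝ) : ℂ) / ((1 : ℂ) - ((x - i.1 : ℝ) : ℂ) * (g i.1).1 x)) =ᶠ[𝓝 x] fun _ => 0 := by
        have h1 := notMem_tsupport_iff_eventuallyEq.mp hx2
        filter_upwards [h1] with y hy
        rw [hy]
        simp
      exact contDiffAt_const.congr_of_eventuallyEq this
  let Q : T → Sm := fun i => ⟨_, hqs i⟩
  have hPQ : ∀ i : T, P i * (X i.1) ^ (k i.1) = Q i * ((X i.1) ^ (k i.1) * (1 - X i.1 * g i.1)) := by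
    intro i
    apply Subtype.ext
    funext x
    change ((ρ i x : ℝ) : ℂ) * ((x - i.1 : ℝ) : ℂ) ^ (k i.1) = ((ρ i x : ℝ) : ℂ) / ((1 : ℂ) - ((x - i.1 : ℝ) : ℂ) * (g i.1).1 x)
      * (((x - i.1 : ℝ) : ℂ) ^ (k i.1) * (1 - ((x - i.1 : ℝ) : ℂ) * (g i.1).1 x))
    by_cases hx : x ∈ U i
    · have hx' : (1 : ℂ) - ((x - i.1 : ℝ) : ℂ) * (g i.1).1 x ≠ 0 := hx
      field_simp
    · have hx2 : x ∉ tsupport (ρ i) := fun h => hx (hρ i h)
      have : ρ i x = 0 := image_eq_zero_of_notMem_tsupport hx2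
      rw [this]
      simp
  have h0 : ∀ i : T, θ (P i * (X i.1) ^ (k i.1)) = 0 := by
    intro i
    rw [hPQ, map_mul, hkg, mul_zero]
  let s : Multiset ℝ := ∑ i : T, (k i.1) • {i.1}
  have hsprod : (s.map X).prod = ∏ i : T, (X i.1) ^ (k i.1) := by
    simp only [s]
    rw [← Multiset.coe_mapAddMonoidHom, map_sum, Multiset.prod_sum]
    apply Finset.prod_congr rfl
    intro i _
    rw [Multiset.coe_mapAddMonoidHom, Multiset.map_nsmul, Multiset.prod_nsmul, Multiset.map_singleton, Multiset.prod_singleton]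
  have hsum : θ (∑ i : T, P i) = 1 := by
    rw [← map_one θ]
    apply heq
    intro x hx
    have h1 := ρ.sum_eq_one hx
    rw [finsum_eq_sum_of_fintype] at h1
    have h2 : (∑ i : T, P i).1 x = ∑ i : T, ((ρ i x : ℝ) : ℂ) := by
      rw [AddSubmonoidClass.coe_finsetSum, Finset.sum_apply]
    rw [h2]
    change _ = (1:ℂ)
    rw [← Complex.ofReal_sum, h1, Complex.ofReal_one]
  refine ⟨s, ?_, ?_⟩
  · intro t ht
    simp only [s] at ht
    rw [Multiset.mem_sum] at ht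
    obtain ⟨i, _, hi⟩ := ht
    have := Multiset.mem_of_mem_nsmul hi
    rw [Multiset.mem_singleton] at this
    rw [this]
    exact hT1 i.1 i.2
  · rw [hsprod]
    have h3 : θ ((∏ i : T, (X i.1) ^ (k i.1)) * ∑ i : T, P i) = 0 := by
      rw [Finset.mul_sum, map_sum]
      apply Finset.sum_eq_zero
      intro i hi
      rw [← Finset.mul_prod_erase _ _ hi]
      have : (X i.1) ^ (k i.1) * (∏ j ∈ Finset.univ.erase i, (X j.1) ^ (k j.1)) * P i
        = (∏ j ∈ Finset.univ.erase i, (X j.1) ^ (k j.1)) * (P i * (X i.1) ^ (k i.1)) := by ring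
      rw [this, map_mul, h0, mul_zero]
    rw [map_mul, hsum, mul_one] at h3
    exact h3

/-- the sup norm of the `k`-th derivative on `[0,1]`. -/
noncomputable def N (k : ℕ) (f : ℝ → ℂ) : ℝ :=
  sSup ((fun x : ℝ => ‖iteratedDeriv k f x‖) '' Set.Icc (0 : ℝ) 1)

lemma N_le (k : ℕ) (f : ℝ → ℂ) (M : ℝ) (hM : ∀ x ∈ Icc (0:ℝ) 1, ‖iteratedDeriv k f x‖ ≤ M) : N k f ≤ M := by
  apply csSup_le
  · exact ⟨_, ⟨0, by simp, rfl⟩⟩
  · rintro _ ⟨x, hx, rfl⟩
    exact hM x hx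

lemma le_N (k : ℕ) (f : Sm) (x : ℝ) (hx : x ∈ Icc (0:ℝ) 1) : ‖iteratedDeriv k f.1 x‖ ≤ N k f.1 := by
  apply le_csSup
  · have hc : Continuous (iteratedDeriv k f.1) := (iteratedDeriv_smooth f.1 f.2 k).continuous
    exact (isCompact_Icc.image hc.norm).bddAbove
  · exact ⟨x, hx, rfl⟩

lemma N_nonneg (k : ℕ) (f : Sm) : 0 ≤ N k f.1 := (norm_nonneg _).trans (le_N k f 0 (by simp))

omit [CompleteSpace B] in
lemma step3 (θ : Sm →ₐ[ℂ] B) (s : Multiset ℝ) : (∀ t ∈ s, t ∈ Icc (0:ℝ) 1) →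
    ∃ C : ℝ, 0 ≤ C ∧ ∀ f : Sm, ∃ g : Sm, ‖θ f - θ ((s.map X).prod * g)‖ ≤ C * ∑ k ∈ Finset.range (Multiset.card s), N k f.1
      ∧ ∀ k, N k g.1 ≤ N (k + Multiset.card s) f.1 := by
  induction s using Multiset.induction_on with
  | empty =>
    intro _
    exact ⟨0, le_rfl, fun f => ⟨f, by simp, by simp⟩⟩
  | cons a s ih =>
    intro h
    obtain ⟨C, hC0, hC⟩ := ih (fun t ht => h t (Multiset.mem_cons_of_mem ht))
    have ha : a ∈ Icc (0:ℝ) 1 := h a (Multiset.mem_cons_self a s)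
    refine ⟨max C ‖θ ((s.map X).prod)‖, le_trans hC0 (le_max_left _ _), fun f => ?_⟩
    obtain ⟨g, hg1, hg2⟩ := hC f
    refine ⟨hqS g a, ?_, ?_⟩
    · rw [Multiset.map_cons, Multiset.prod_cons, Multiset.card_cons, Finset.sum_range_succ]
      have e : X a * (s.map X).prod * hqS g a = (s.map X).prod * g - (g.1 a) • (s.map X).prod := by
        have h1 := hqS_eq g a
        have h2 : (s.map X).prod * g = (s.map X).prod * ((g.1 a) • (1 : Sm) + X a * hqS g a) := by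
          rw [← h1]
        rw [h2, mul_add, mul_smul_comm, mul_one]
        ring
      rw [e, map_sub, map_smul]
      have e2 : θ f - (θ ((s.map X).prod * g) - g.1 a • θ (s.map X).prod) =
        (θ f - θ ((s.map X).prod * g)) + g.1 a • θ (s.map X).prod := by abel
      rw [e2]
      refine (norm_add_le _ _).trans ?_
      rw [norm_smul, mul_add]
      have h3 : ‖g.1 a‖ ≤ N (Multiset.card s) f.1 := by
        have h4 := le_N 0 g a ha
        have h5 := hg2 0
        rw [iteratedDeriv_zero] at h4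
        rw [zero_add] at h5
        exact h4.trans h5
      have h6 : 0 ≤ ∑ k ∈ Finset.range (Multiset.card s), N k f.1 := Finset.sum_nonneg (fun k _ => N_nonneg k f)
      have h7 := N_nonneg (Multiset.card s) f
      apply add_le_add
      · refine hg1.trans ?_
        gcongr
        exact le_max_left _ _
      · rw [mul_comm]
        gcongr
        exact le_max_right _ _
    · intro k
      rw [Multiset.card_cons]
      have h1 : N k (hqS g a).1 ≤ N (k + 1) g.1 := by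
        apply N_le
        exact hq_bound g.1 g.2 a ha k _ (fun y hy => le_N (k + 1) g y hy)
      refine h1.trans ((hg2 (k + 1)).trans ?_)
      have : k + 1 + Multiset.card s = k + (Multiset.card s + 1) := by ring
      rw [this]

/-- The main theorem, in terms of the bundled algebra. -/
lemma main (θ : Sm →ₐ[ℂ] B) (hsurj : Function.Surjective θ)
    (heq : ∀ f g : Sm, EqOn f.1 g.1 (Icc (0:ℝ) 1) → θ f = θ g) :
    ∃ n : ℕ, ∃ C : ℝ, ∀ f : Sm, ‖θ f‖ ≤ C * ∑ k ∈ Finset.range (n + 1), N k f.1 := by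
  obtain ⟨s, hs, hs0⟩ := step2 θ hsurj heq
  obtain ⟨C, hC0, hC⟩ := step3 θ s hs
  refine ⟨Multiset.card s, C, fun f => ?_⟩
  obtain ⟨g, hg, -⟩ := hC f
  rw [map_mul, hs0, zero_mul, sub_zero] at hg
  refine hg.trans ?_
  gcongr
  · intro i _ _
    exact N_nonneg i f
  · exact Nat.le_succ _

end Pool.Agent.Lib.Pcb17ae
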